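import Mathlib

/-! # The Erdős-Kahane argument: for almost every `θ` the numbers `w θ^i` are often far from the
integers, uniformly in `w` -/

set_option autoImplicit false

namespace Forcing.EK

open Finset MeasureTheory Filter Topology

/-- Three consecutive terms. -/
theorem ek_step {b θ X : ℝ} (hθ1 : 1 ≤ θ) (hθb : θ ≤ b) (hX : 1 ≤ X) :
    |(round (θ * (θ * X)) : ℝ) - (round (θ * X) : ℝ) ^ 2 / (round X : ℝ)| ≤
      2 * b ^ 2 * |X - round X| + (4 * b + 1) * |θ * X - round (θ * X)| +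
        |θ * (θ * X) - round (θ * (θ * X))| := by
  obtain ⟨n, hn⟩ : ∃ n : ℝ, n = (round X : ℝ) := ⟨_, rfl⟩
  obtain ⟨n', hn'⟩ : ∃ n' : ℝ, n' = (round (θ * X) : ℝ) := ⟨_, rfl⟩
  obtain ⟨n'', hn''⟩ : ∃ n'' : ℝ, n'' = (round (θ * (θ * X)) : ℝ) := ⟨_, rfl⟩
  have h0 : |X - n| ≤ 1 / 2 := by
    rw [hn]
    exact abs_sub_round X
  have h1 : |θ * X - n'| ≤ 1 / 2 := by
    rw [hn']
    exact abs_sub_round _
  have hn1 : 1 ≤ n := by
    have h2 : (0 : ℝ) < (round X : ℝ) := by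
      rw [← hn]
      linarith [(abs_le.1 h0).2]
    have h3 : (0 : ℤ) < round X := by exact_mod_cast h2
    rw [hn]
    exact_mod_cast h3
  rw [← hn, ← hn', ← hn'']
  have hXn : X ≤ 2 * n := by linarith [(abs_le.1 h0).2]
  have hn0 : 0 < n := by linarith
  have hb1 : 1 ≤ b := hθ1.trans hθb
  have hmain : |θ * (θ * X) - n' ^ 2 / n| ≤
      2 * b ^ 2 * |X - n| + (4 * b + 1) * |θ * X - n'| := by
    have e1 : θ * (θ * X) - n' ^ 2 / n =
        (2 * (θ * X) * (θ * X - n') - (θ * X - n') ^ 2 - θ * (θ * X) * (X - n)) / n := by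
      field_simp
      ring
    rw [e1, abs_div, abs_of_pos hn0, div_le_iff₀ hn0]
    have hY : θ * X ≤ 2 * b * n := by
      calc θ * X ≤ b * X := mul_le_mul_of_nonneg_right hθb (by linarith)
        _ ≤ b * (2 * n) := mul_le_mul_of_nonneg_left hXn (by linarith)
        _ = 2 * b * n := by ring
    have hY0 : 0 ≤ θ * X := by positivity
    have hZ : θ * (θ * X) ≤ 2 * b ^ 2 * n := by
      calc θ * (θ * X) ≤ b * (2 * b * n) := mul_le_mul hθb hY hY0 (by linarith)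
        _ = 2 * b ^ 2 * n := by ring
    have hZ0 : 0 ≤ θ * (θ * X) := by positivity
    have a0 : 0 ≤ |X - n| := abs_nonneg _
    have a1 : 0 ≤ |θ * X - n'| := abs_nonneg _
    have t1 : |2 * (θ * X) * (θ * X - n')| ≤ 2 * (2 * b * n) * |θ * X - n'| := by
      rw [abs_mul, abs_of_nonneg (by positivity : 0 ≤ 2 * (θ * X))]
      exact mul_le_mul_of_nonneg_right (by linarith) a1
    have t2 : |(θ * X - n') ^ 2| ≤ n * |θ * X - n'| := by
      rw [abs_pow, sq]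
      exact mul_le_mul_of_nonneg_right (by linarith) a1
    have t3 : |θ * (θ * X) * (X - n)| ≤ 2 * b ^ 2 * n * |X - n| := by
      rw [abs_mul, abs_of_nonneg hZ0]
      exact mul_le_mul_of_nonneg_right hZ a0
    have t4 : |2 * (θ * X) * (θ * X - n') - (θ * X - n') ^ 2 - θ * (θ * X) * (X - n)| ≤
        |2 * (θ * X) * (θ * X - n')| + |(θ * X - n') ^ 2| + |θ * (θ * X) * (X - n)| :=
      (abs_sub _ _).trans (add_le_add_left (abs_sub _ _) _)
    calc |2 * (θ * X) * (θ * X - n') - (θ * X - n') ^ 2 - θ * (θ * X) * (X - n)|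
        ≤ 2 * (2 * b * n) * |θ * X - n'| + n * |θ * X - n'| + 2 * b ^ 2 * n * |X - n| := by
          linarith
      _ = (2 * b ^ 2 * |X - n| + (4 * b + 1) * |θ * X - n'|) * n := by ring
  have e2 : n'' - n' ^ 2 / n = (θ * (θ * X) - n' ^ 2 / n) - (θ * (θ * X) - n'') := by ring
  rw [e2]
  exact (abs_sub _ _).trans (add_le_add_left hmain _)

/-- The ratio of two consecutive terms determines `θ`. -/
theorem ek_ratio {b θ X : ℝ} (hθ1 : 1 ≤ θ) (hθb : θ ≤ b) (hX : 1 ≤ X) :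
    |θ - (round (θ * X) : ℝ) / (round X : ℝ)| ≤ (b + 1) / X := by
  obtain ⟨n, hn⟩ : ∃ n : ℝ, n = (round X : ℝ) := ⟨_, rfl⟩
  obtain ⟨n', hn'⟩ : ∃ n' : ℝ, n' = (round (θ * X) : ℝ) := ⟨_, rfl⟩
  have h0 : |X - n| ≤ 1 / 2 := by
    rw [hn]
    exact abs_sub_round X
  have h1 : |θ * X - n'| ≤ 1 / 2 := by
    rw [hn']
    exact abs_sub_round _
  have hn0 : 0 < n := by linarith [(abs_le.1 h0).2]
  have hXn : X ≤ 2 * n := by linarith [(abs_le.1 h0).2]
  rw [← hn, ← hn']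
  have e1 : θ - n' / n = ((θ * X - n') - θ * (X - n)) / n := by
    field_simp
    ring
  rw [e1, abs_div, abs_of_pos hn0, div_le_div_iff₀ hn0 (by linarith)]
  have t1 : |(θ * X - n') - θ * (X - n)| ≤ (b + 1) / 2 := by
    have t2 : |θ * (X - n)| ≤ b * (1 / 2) := by
      rw [abs_mul, abs_of_nonneg (by linarith : 0 ≤ θ)]
      exact mul_le_mul hθb h0 (abs_nonneg _) (by linarith)
    linarith [abs_sub (θ * X - n') (θ * (X - n))]
  calc |(θ * X - n') - θ * (X - n)| * X ≤ (b + 1) / 2 * (2 * n) :=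
        mul_le_mul t1 hXn (by linarith) (by linarith)
    _ = (b + 1) * n := by ring

/-- The distance from the nearest integer. -/
noncomputable def ds (x : ℝ) : ℝ := |x - round x|

theorem ds_nonneg (x : ℝ) : 0 ≤ ds x := abs_nonneg _

theorem ds_le (x : ℝ) : ds x ≤ 1 / 2 := abs_sub_round x

/-- The error of the prediction. -/
noncomputable def dif (θ X : ℝ) : ℤ :=
  round (θ * (θ * X)) - round ((round (θ * X) : ℝ) ^ 2 / (round X : ℝ))

theorem dif_le {b θ X : ℝ} (hθ1 : 1 ≤ θ) (hθb : θ ≤ b) (hX : 1 ≤ X) :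
    |(dif θ X : ℝ)| ≤ (b + 1) ^ 2 + 1 / 2 := by
  have h1 := ek_step hθ1 hθb hX
  have h2 := abs_sub_round ((round (θ * X) : ℝ) ^ 2 / (round X : ℝ))
  have hb1 : 1 ≤ b := hθ1.trans hθb
  have a0 : |X - round X| ≤ 1 / 2 := abs_sub_round _
  have a1 : |θ * X - round (θ * X)| ≤ 1 / 2 := abs_sub_round _
  have a2 : |θ * (θ * X) - round (θ * (θ * X))| ≤ 1 / 2 := abs_sub_round _
  have e1 : (dif θ X : ℝ) = ((round (θ * (θ * X)) : ℝ) - (round (θ * X) : ℝ) ^ 2 / (round X : ℝ)) +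
      ((round (θ * X) : ℝ) ^ 2 / (round X : ℝ) -
        (round ((round (θ * X) : ℝ) ^ 2 / (round X : ℝ)) : ℝ)) := by
    unfold dif
    push_cast
    ring
  rw [e1]
  refine (abs_add_le _ _).trans ?_
  have e2 : 2 * b ^ 2 * |X - round X| ≤ 2 * b ^ 2 * (1 / 2) :=
    mul_le_mul_of_nonneg_left a0 (by positivity)
  have e3 : (4 * b + 1) * |θ * X - round (θ * X)| ≤ (4 * b + 1) * (1 / 2) :=
    mul_le_mul_of_nonneg_left a1 (by linarith)
  nlinarith

theorem dif_eq_zero {b θ X δ : ℝ} (hθ1 : 1 ≤ θ) (hθb : θ ≤ b) (hX : 1 ≤ X)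
    (hδ : δ * (8 * (b + 1) ^ 2) = 1) (h0 : ds X < δ) (h1 : ds (θ * X) < δ)
    (h2 : ds (θ * (θ * X)) < δ) : dif θ X = 0 := by
  have h3 := ek_step hθ1 hθb hX
  have h4 := abs_sub_round ((round (θ * X) : ℝ) ^ 2 / (round X : ℝ))
  have hb1 : 1 ≤ b := hθ1.trans hθb
  have e1 : (dif θ X : ℝ) = ((round (θ * (θ * X)) : ℝ) - (round (θ * X) : ℝ) ^ 2 / (round X : ℝ)) +
      ((round (θ * X) : ℝ) ^ 2 / (round X : ℝ) -
        (round ((round (θ * X) : ℝ) ^ 2 / (round X : ℝ)) : ℝ)) := by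
    unfold dif
    push_cast
    ring
  have h5 : |(dif θ X : ℝ)| < 1 := by
    rw [e1]
    refine lt_of_le_of_lt (abs_add_le _ _) ?_
    unfold ds at h0 h1 h2
    have e2 : 2 * b ^ 2 * |X - round X| ≤ 2 * b ^ 2 * δ :=
      mul_le_mul_of_nonneg_left h0.le (by positivity)
    have e3 : (4 * b + 1) * |θ * X - round (θ * X)| ≤ (4 * b + 1) * δ :=
      mul_le_mul_of_nonneg_left h1.le (by linarith)
    nlinarith
  have h6 : |dif θ X| < 1 := by exact_mod_cast h5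
  exact Int.abs_lt_one_iff.1 h6

/-- The sequence of pairs determined by its beginning and the errors of the prediction. -/
noncomputable def st (p : ℤ × ℤ) (d : ℕ → ℤ) : ℕ → ℤ × ℤ
  | 0 => p
  | i + 1 => ((st p d i).2, round (((st p d i).2 : ℝ) ^ 2 / ((st p d i).1 : ℝ)) + d i)

theorem st_eq (n : ℕ → ℤ) (d : ℕ → ℤ) (m : ℕ)
    (h : ∀ i < m, n (i + 2) = round ((n (i + 1) : ℝ) ^ 2 / (n i : ℝ)) + d i) :
    st (n 0, n 1) d m = (n m, n (m + 1)) := by
  induction m with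
  | zero => rfl
  | succ m ih =>
    have h1 := ih (fun i hi => h i (by omega))
    rw [st, h1, h m (by omega)]

/-- Few errors. -/
noncomputable def codes (m K L : ℕ) : Finset (Fin m → ℤ) :=
  (Fintype.piFinset fun _ : Fin m => Icc (-(K : ℤ)) K).filter
    (fun d => (univ.filter (fun i => d i ≠ 0)).card ≤ L)

theorem codes_card (m K L : ℕ) {z : ℝ} (hz0 : 0 < z) (hz1 : z ≤ 1) :
    ((codes m K L).card : ℝ) * z ^ L ≤ (1 + 2 * K * z) ^ m := by
  have h1 : ∑ v ∈ Icc (-(K : ℤ)) K, (if v ≠ 0 then z else 1) = 1 + 2 * K * z := by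
    have h2 : ∀ v ∈ Icc (-(K : ℤ)) K, (if v ≠ 0 then z else 1) = z + if v = 0 then 1 - z else 0 := by
      intro v _
      by_cases h : v = 0
      · simp [h]
      · simp [h]
    rw [sum_congr rfl h2, sum_add_distrib, sum_const, nsmul_eq_mul, sum_ite_eq',
      if_pos (by simp), Int.card_Icc]
    have h3 : ((K : ℤ) + 1 - -(K : ℤ)).toNat = 2 * K + 1 := by omega
    rw [h3]
    push_cast
    ring
  have h2 : ∑ d ∈ Fintype.piFinset (fun _ : Fin m => Icc (-(K : ℤ)) K),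
      z ^ (univ.filter (fun i => d i ≠ 0)).card = (1 + 2 * K * z) ^ m := by
    have h3 := Finset.prod_univ_sum (fun _ : Fin m => Icc (-(K : ℤ)) K)
      (fun _ v => if v ≠ 0 then z else 1)
    rw [prod_congr rfl (fun _ _ => h1), prod_const, card_univ, Fintype.card_fin] at h3
    rw [h3]
    refine sum_congr rfl fun d _ => ?_
    rw [prod_ite, prod_const, prod_const_one, mul_one]
  rw [← h2, ← nsmul_eq_mul, ← sum_const]
  calc ∑ _d ∈ codes m K L, z ^ L ≤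
        ∑ d ∈ codes m K L, z ^ (univ.filter (fun i => d i ≠ 0)).card := by
        refine sum_le_sum fun d hd => ?_
        unfold codes at hd
        exact pow_le_pow_of_le_one hz0.le hz1 (mem_filter.1 hd).2
    _ ≤ _ := by
        refine sum_le_sum_of_subset_of_nonneg (filter_subset _ _) fun d _ _ => ?_
        positivity

/-- The number of terms far from the integers. -/
noncomputable def fars (δ w θ : ℝ) (M : ℕ) : ℕ :=
  ((range M).filter (fun i => δ ≤ ds (w * θ ^ i))).card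

/-- Bad parameters. -/
def Bd (a b δ : ℝ) (q m : ℕ) : Set ℝ :=
  {θ | a ≤ θ ∧ θ ≤ b ∧ ∃ w, 1 ≤ w ∧ w ≤ b ∧ 3 * fars δ w θ (m + 2) * q ≤ m + 2}

/-- The ratio of the last two terms. -/
noncomputable def cen (m : ℕ) (c : (ℤ × ℤ) × (Fin m → ℤ)) : ℝ :=
  ((st c.1 (fun i => if h : i < m then c.2 ⟨i, h⟩ else 0) m).2 : ℝ) /
    ((st c.1 (fun i => if h : i < m then c.2 ⟨i, h⟩ else 0) m).1 : ℝ)

theorem round_one_le {X : ℝ} (hX : 1 ≤ X) : 1 ≤ round X := by
  have h1 := (abs_le.1 (abs_sub_round X)).2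
  have h2 : (0 : ℝ) < (round X : ℝ) := by linarith
  have h3 : (0 : ℤ) < round X := by exact_mod_cast h2
  omega

theorem round_le_of {X : ℝ} {B : ℕ} (hX : X + 1 / 2 ≤ B) : round X ≤ (B : ℤ) := by
  have h1 := (abs_le.1 (abs_sub_round X)).1
  have h2 : (round X : ℝ) ≤ (B : ℝ) := by linarith
  exact_mod_cast h2

theorem nz_le {a b δ w θ : ℝ} {m : ℕ} (ha : 1 < a) (hδ : δ * (8 * (b + 1) ^ 2) = 1)
    (h1 : a ≤ θ) (h2 : θ ≤ b) (hw1 : 1 ≤ w) :
    (univ.filter (fun i : Fin m => dif θ (w * θ ^ (i : ℕ)) ≠ 0)).card ≤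
      3 * fars δ w θ (m + 2) := by
  have hθ1 : 1 ≤ θ := by linarith
  have hX : ∀ i : ℕ, 1 ≤ w * θ ^ i := fun i => by
    have := one_le_pow₀ (n := i) hθ1
    nlinarith
  set F := (range (m + 2)).filter (fun i => δ ≤ ds (w * θ ^ i)) with hF
  have hs : ∀ k : ℕ, k ≤ 2 → ((range m).filter (fun i => i + k ∈ F)).card ≤ F.card := by
    intro k _
    refine card_le_card_of_injOn (fun i => i + k) ?_ ?_
    · intro i hi
      exact (mem_filter.1 (mem_coe.1 hi)).2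
    · intro i _ j _ hij
      exact Nat.add_right_cancel hij
  have hc : (univ.filter (fun i : Fin m => dif θ (w * θ ^ (i : ℕ)) ≠ 0)).card ≤
      ((range m).filter (fun i => i + 0 ∈ F) ∪ ((range m).filter (fun i => i + 1 ∈ F) ∪
        (range m).filter (fun i => i + 2 ∈ F))).card := by
    refine card_le_card_of_injOn (fun i : Fin m => (i : ℕ)) ?_ ?_
    · intro i hi
      have hi' := (mem_filter.1 (mem_coe.1 hi)).2
      by_contra hcon
      have him := i.2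
      have d0 : (i : ℕ) + 0 ∉ F := fun h => hcon (mem_coe.2 (mem_union_left _
        (mem_filter.2 ⟨mem_range.2 him, h⟩)))
      have d1 : (i : ℕ) + 1 ∉ F := fun h => hcon (mem_coe.2 (mem_union_right _
        (mem_union_left _ (mem_filter.2 ⟨mem_range.2 him, h⟩))))
      have d2 : (i : ℕ) + 2 ∉ F := fun h => hcon (mem_coe.2 (mem_union_right _
        (mem_union_right _ (mem_filter.2 ⟨mem_range.2 him, h⟩))))
      have hlt : ∀ k : ℕ, k ≤ 2 → (i : ℕ) + k ∉ F → ds (w * θ ^ ((i : ℕ) + k)) < δ := by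
        intro k hk h
        by_contra h'
        exact h (mem_filter.2 ⟨mem_range.2 (by omega), not_lt.1 h'⟩)
      have e0 := hlt 0 (by omega) d0
      have e1 := hlt 1 (by omega) d1
      have e2 := hlt 2 (by omega) d2
      rw [add_zero] at e0
      have r1 : w * θ ^ ((i : ℕ) + 1) = θ * (w * θ ^ (i : ℕ)) := by ring
      have r2 : w * θ ^ ((i : ℕ) + 2) = θ * (θ * (w * θ ^ (i : ℕ))) := by ring
      rw [r1] at e1
      rw [r2] at e2
      exact hi' (dif_eq_zero hθ1 h2 (hX i) hδ e0 e1 e2)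
    · intro i _ j _ hij
      exact Fin.ext hij
  have g0 := hs 0 (by norm_num)
  have g1 := hs 1 (by norm_num)
  have g2 := hs 2 (by norm_num)
  have u1 := card_union_le ((range m).filter (fun i => i + 0 ∈ F))
    ((range m).filter (fun i => i + 1 ∈ F) ∪ (range m).filter (fun i => i + 2 ∈ F))
  have u2 := card_union_le ((range m).filter (fun i => i + 1 ∈ F))
    ((range m).filter (fun i => i + 2 ∈ F))
  unfold fars
  rw [← hF]
  omega

theorem Bd_subset {a b δ : ℝ} {q m K B0 : ℕ} (ha : 1 < a) (hδ : δ * (8 * (b + 1) ^ 2) = 1)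
    (hK : (b + 1) ^ 2 + 1 / 2 ≤ K) (hB0 : b ^ 2 + 1 ≤ B0) (hq : 0 < q) :
    Bd a b δ q m ⊆ ⋃ c ∈ ((Icc 1 (B0 : ℤ)) ×ˢ (Icc 1 (B0 : ℤ))) ×ˢ codes m K ((m + 2) / q),
      Metric.closedBall (cen m c) ((b + 1) / a ^ m) := by
  rintro θ ⟨h1, h2, w, hw1, hwb, hf⟩
  have hθ1 : 1 ≤ θ := by linarith
  have hb1 : 1 ≤ b := by linarith
  have hX : ∀ i : ℕ, 1 ≤ w * θ ^ i := fun i => by
    have := one_le_pow₀ (n := i) hθ1
    nlinarith
  have hw0 : round (w * θ ^ 0) = round w := by rw [pow_zero, mul_one]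
  have hst := st_eq (fun i => round (w * θ ^ i))
    (fun i => if h : i < m then (fun j : Fin m => dif θ (w * θ ^ (j : ℕ))) ⟨i, h⟩ else 0) m (by
      intro i hi
      simp only [dif_pos hi]
      unfold dif
      have r1 : w * θ ^ (i + 1) = θ * (w * θ ^ i) := by ring
      have r2 : w * θ ^ (i + 2) = θ * (θ * (w * θ ^ i)) := by ring
      rw [r1, r2]
      ring)
  refine Set.mem_iUnion₂.2 ⟨((round (w * θ ^ 0), round (w * θ ^ 1)),
    fun j : Fin m => dif θ (w * θ ^ (j : ℕ))), ?_, ?_⟩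
  · refine mem_product.2 ⟨mem_product.2 ⟨mem_Icc.2 ⟨round_one_le (hX 0), round_le_of ?_⟩,
      mem_Icc.2 ⟨round_one_le (hX 1), round_le_of ?_⟩⟩, ?_⟩
    · rw [pow_zero, mul_one]
      nlinarith
    · rw [pow_one]
      have : w * θ ≤ b * b := mul_le_mul hwb h2 (by linarith) (by linarith)
      nlinarith
    · unfold codes
      rw [mem_filter, Fintype.mem_piFinset]
      refine ⟨fun j => ?_, ?_⟩
      · have h3 := dif_le hθ1 h2 (hX j)
        have h4 : |(dif θ (w * θ ^ (j : ℕ)) : ℝ)| ≤ K := h3.trans hK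
        have h5 : |dif θ (w * θ ^ (j : ℕ))| ≤ (K : ℤ) := by exact_mod_cast h4
        exact mem_Icc.2 (abs_le.1 h5)
      · rw [Nat.le_div_iff_mul_le hq]
        exact le_trans (Nat.mul_le_mul_right q (nz_le ha hδ h1 h2 hw1)) hf
  · rw [Metric.mem_closedBall, Real.dist_eq]
    unfold cen
    rw [hst]
    have r1 : w * θ ^ (m + 1) = θ * (w * θ ^ m) := by ring
    simp only [r1]
    refine (ek_ratio hθ1 h2 (hX m)).trans ?_
    have h6 : a ^ m ≤ w * θ ^ m := by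
      have h7 : a ^ m ≤ θ ^ m := pow_le_pow_left₀ (by linarith) h1 m
      have h8 : 0 ≤ θ ^ m := by positivity
      nlinarith
    exact div_le_div_of_nonneg_left (by linarith) (by positivity) h6

theorem vol_Bd {a b δ : ℝ} {q m K B0 : ℕ} (ha : 1 < a)
    (hδ : δ * (8 * (b + 1) ^ 2) = 1)
    (hK : (b + 1) ^ 2 + 1 / 2 ≤ K) (hB0 : b ^ 2 + 1 ≤ B0) (hq : 0 < q) :
    volume (Bd a b δ q m) ≤
      ENNReal.ofReal ((B0 : ℝ) ^ 2 * (codes m K ((m + 2) / q)).card *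
        (2 * ((b + 1) / a ^ m))) := by
  refine (measure_mono (Bd_subset ha hδ hK hB0 hq)).trans ((measure_biUnion_finset_le _ _).trans ?_)
  simp only [Real.volume_closedBall]
  rw [sum_const, card_product, card_product, Int.card_Icc, nsmul_eq_mul]
  have h1 : ((B0 : ℤ) + 1 - 1).toNat = B0 := by omega
  have h2 : (0 : ℝ) ≤ (B0 : ℝ) ^ 2 * (codes m K ((m + 2) / q)).card := by positivity
  rw [h1, ENNReal.ofReal_mul h2, ← ENNReal.ofReal_natCast]
  refine le_of_eq ?_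
  congr 2
  push_cast
  ring

/-- Almost every parameter in `[a, b]` is good. -/
theorem ek_ab {a b : ℝ} (ha : 1 < a) (hab : a ≤ b) :
    ∃ (δ : ℝ) (q : ℕ), 0 < δ ∧ δ ≤ 1 / 2 ∧ 0 < q ∧ ∀ᵐ θ : ℝ, ∃ M0 : ℕ, a ≤ θ → θ ≤ b →
      ∀ m : ℕ, M0 ≤ m → ∀ w : ℝ, 1 ≤ w → w ≤ b → m + 2 < 3 * fars δ w θ (m + 2) * q := by
  have hb1 : 1 ≤ b := by linarith
  obtain ⟨δ, hδdef⟩ : ∃ δ : ℝ, δ = 1 / (8 * (b + 1) ^ 2) := ⟨_, rfl⟩
  have hδ0 : 0 < δ := by
    rw [hδdef]
    positivity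
  have hδ : δ * (8 * (b + 1) ^ 2) = 1 := by
    rw [hδdef]
    field_simp
  have hδ1 : δ ≤ 1 / 2 := by nlinarith
  obtain ⟨K, hK⟩ := exists_nat_ge ((b + 1) ^ 2 + 1 / 2)
  obtain ⟨B0, hB0⟩ := exists_nat_ge (b ^ 2 + 1)
  obtain ⟨κ, hκdef⟩ : ∃ κ : ℝ, κ = Real.sqrt (Real.sqrt a) := ⟨_, rfl⟩
  have hs1 : 1 < Real.sqrt a := by
    rw [Real.lt_sqrt (by norm_num)]
    linarith
  have hκ1 : 1 < κ := by
    rw [hκdef, Real.lt_sqrt (by norm_num)]
    linarith
  have hκ4 : κ ^ 4 = a := by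
    rw [hκdef, show (4 : ℕ) = 2 * 2 by norm_num, pow_mul, Real.sq_sqrt (Real.sqrt_nonneg _),
      Real.sq_sqrt (by linarith)]
  have hK0 : (0 : ℝ) ≤ K := Nat.cast_nonneg K
  obtain ⟨z, hzdef⟩ : ∃ z : ℝ, z = (κ - 1) / (2 * K + κ) := ⟨_, rfl⟩
  have hden : 0 < 2 * (K : ℝ) + κ := by linarith
  have hz0 : 0 < z := by
    rw [hzdef]
    exact div_pos (by linarith) hden
  have hz1 : z ≤ 1 := by
    rw [hzdef, div_le_one hden]
    linarith
  have hzK : 1 + 2 * K * z ≤ κ := by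
    have h1 : 2 * K * z ≤ κ - 1 := by
      rw [hzdef, ← mul_div_assoc, div_le_iff₀ hden]
      nlinarith
    linarith
  obtain ⟨q0, hq0⟩ := pow_unbounded_of_one_lt (1 / z) hκ1
  obtain ⟨q, hq⟩ : ∃ q : ℕ, q = q0 + 1 := ⟨_, rfl⟩
  have hqpos : 0 < q := by omega
  have hzq : 1 / z ≤ κ ^ q := by
    refine hq0.le.trans ?_
    exact pow_le_pow_right₀ hκ1.le (by omega)
  have hκ0 : 0 < κ := by linarith
  refine ⟨δ, q, hδ0, hδ1, hqpos, ?_⟩
  have hcard : ∀ m : ℕ, ((codes m K ((m + 2) / q)).card : ℝ) ≤ κ ^ m * κ ^ (m + 2) := by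
    intro m
    have h1 := codes_card m K ((m + 2) / q) hz0 hz1
    have h2 : (1 + 2 * (K : ℝ) * z) ^ m ≤ κ ^ m := pow_le_pow_left₀ (by positivity) hzK m
    have h3 : (1 / z) ^ ((m + 2) / q) ≤ κ ^ (m + 2) := by
      calc (1 / z) ^ ((m + 2) / q) ≤ (κ ^ q) ^ ((m + 2) / q) :=
            pow_le_pow_left₀ (by positivity) hzq _
        _ = κ ^ (q * ((m + 2) / q)) := by rw [pow_mul]
        _ ≤ κ ^ (m + 2) := pow_le_pow_right₀ hκ1.le (Nat.mul_div_le _ _)
    have h4 : ((codes m K ((m + 2) / q)).card : ℝ) =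
        ((codes m K ((m + 2) / q)).card : ℝ) * z ^ ((m + 2) / q) * (1 / z) ^ ((m + 2) / q) := by
      rw [mul_assoc, ← mul_pow, mul_one_div_cancel hz0.ne', one_pow, mul_one]
    rw [h4]
    exact mul_le_mul (h1.trans h2) h3 (by positivity) (by positivity)
  have hsum : (∑' m, volume (Bd a b δ q m)) ≠ ⊤ := by
    obtain ⟨C, hC⟩ : ∃ C : ℝ, C = (B0 : ℝ) ^ 2 * (κ ^ 2 * (2 * (b + 1))) := ⟨_, rfl⟩
    have hle : ∀ m, volume (Bd a b δ q m) ≤ ENNReal.ofReal (C * ((κ ^ 2)⁻¹) ^ m) := by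
      intro m
      refine (vol_Bd ha hδ hK hB0 hqpos).trans (ENNReal.ofReal_le_ofReal ?_)
      have ham : a ^ m = κ ^ m * κ ^ m * (κ ^ 2) ^ m := by
        rw [← hκ4]
        ring
      calc (B0 : ℝ) ^ 2 * (codes m K ((m + 2) / q)).card * (2 * ((b + 1) / a ^ m))
          ≤ (B0 : ℝ) ^ 2 * (κ ^ m * κ ^ (m + 2)) * (2 * ((b + 1) / a ^ m)) := by
            refine mul_le_mul_of_nonneg_right ?_ (by positivity)
            exact mul_le_mul_of_nonneg_left (hcard m) (by positivity)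
        _ = C * ((κ ^ 2)⁻¹) ^ m := by
            rw [hC, ham, inv_pow]
            field_simp
            ring
    refine ne_top_of_le_ne_top ?_ (ENNReal.tsum_le_tsum hle)
    apply Summable.tsum_ofReal_ne_top
    apply Summable.mul_left
    apply summable_geometric_of_lt_one (by positivity)
    rw [inv_lt_one₀ (by positivity)]
    nlinarith
  have hae := ae_eventually_notMem hsum
  filter_upwards [hae] with θ hθ
  obtain ⟨M0, hM0⟩ := eventually_atTop.1 hθ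
  refine ⟨M0, fun h1 h2 m hm w hw1 hw2 => ?_⟩
  have h3 := hM0 m hm
  by_contra h4
  exact h3 ⟨h1, h2, w, hw1, hw2, not_lt.1 h4⟩

/-- Almost every parameter is good. -/
theorem ek_ae : ∀ᵐ θ : ℝ, 1 < θ → ∃ (δ : ℝ) (q M0 : ℕ), 0 < δ ∧ δ ≤ 1 / 2 ∧ 0 < q ∧
    ∀ m : ℕ, M0 ≤ m → ∀ w : ℝ, 1 ≤ w → w ≤ θ → m + 2 < 3 * fars δ w θ (m + 2) * q := by
  have h : ∀ k : ℕ, ∀ᵐ θ : ℝ, 1 + 1 / ((k : ℝ) + 1) ≤ θ → θ ≤ (k : ℝ) + 2 →
      ∃ (δ : ℝ) (q M0 : ℕ), 0 < δ ∧ δ ≤ 1 / 2 ∧ 0 < q ∧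
        ∀ m : ℕ, M0 ≤ m → ∀ w : ℝ, 1 ≤ w → w ≤ θ → m + 2 < 3 * fars δ w θ (m + 2) * q := by
    intro k
    have hk : (0 : ℝ) ≤ k := Nat.cast_nonneg k
    have h1 : (0 : ℝ) < 1 / ((k : ℝ) + 1) := by positivity
    have h2 : 1 / ((k : ℝ) + 1) ≤ 1 := by
      rw [div_le_one (by positivity)]
      linarith
    obtain ⟨δ, q, hδ0, hδ1, hq, hae⟩ := ek_ab (a := 1 + 1 / ((k : ℝ) + 1)) (b := (k : ℝ) + 2)
      (by linarith) (by linarith)
    filter_upwards [hae] with θ hθ h3 h4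
    obtain ⟨M0, hM0⟩ := hθ
    exact ⟨δ, q, M0, hδ0, hδ1, hq, fun m hm w hw1 hw2 => hM0 h3 h4 m hm w hw1 (hw2.trans h4)⟩
  have h' := ae_all_iff.2 h
  filter_upwards [h'] with θ hθ h1
  obtain ⟨k1, hk1⟩ := exists_nat_one_div_lt (sub_pos.2 h1)
  obtain ⟨k2, hk2⟩ := exists_nat_ge θ
  have hk1' : (0 : ℝ) ≤ k1 := Nat.cast_nonneg k1
  have hk2' : (0 : ℝ) ≤ k2 := Nat.cast_nonneg k2
  refine hθ (k1 + k2) ?_ ?_
  · have h2 : 1 / (((k1 + k2 : ℕ) : ℝ) + 1) ≤ 1 / ((k1 : ℝ) + 1) := by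
      apply one_div_le_one_div_of_le (by positivity)
      push_cast
      linarith
    linarith
  · push_cast
    linarith

end Forcing.EK
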