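import Pool.Agent.Lib.MP_c80ac4_an.PI.EK

/-! # Power decay of the infinite products for almost every `θ` -/

set_option autoImplicit false

namespace Forcing.EK

open Finset MeasureTheory Filter Topology

theorem cos_le {x δ : ℝ} (hδ : 0 ≤ δ) (h : δ ≤ ds x) :
    |Real.cos (Real.pi * x)| ≤ Real.cos (Real.pi * δ) := by
  have h1 : Real.cos (Real.pi * x - round x * Real.pi) = (-1) ^ (round x) * Real.cos (Real.pi * x) :=
    Real.cos_sub_int_mul_pi _ _
  have h2 : |Real.cos (Real.pi * x)| = |Real.cos (Real.pi * (x - round x))| := by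
    rw [show Real.pi * (x - round x) = Real.pi * x - round x * Real.pi by ring, h1, abs_mul,
      abs_zpow, abs_neg, abs_one, one_zpow, one_mul]
  have h3 : Real.cos (Real.pi * (x - round x)) = Real.cos (Real.pi * ds x) := by
    unfold ds
    rw [← Real.cos_abs, abs_mul, abs_of_pos Real.pi_pos]
  have h4 := ds_le x
  have h5 := ds_nonneg x
  have hpi := Real.pi_pos
  have h6 : 0 ≤ Real.cos (Real.pi * ds x) :=
    Real.cos_nonneg_of_neg_pi_div_two_le_of_le (by nlinarith) (by nlinarith)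
  rw [h2, h3, abs_of_nonneg h6]
  exact Real.cos_le_cos_of_nonneg_of_le_pi (by positivity) (by nlinarith)
    (mul_le_mul_of_nonneg_left h hpi.le)

theorem prod_le {δ w θ ρ : ℝ} (hδ : 0 ≤ δ) (hρ : Real.cos (Real.pi * δ) ≤ ρ) (m : ℕ) :
    ∏ i ∈ range m, |Real.cos (Real.pi * (w * θ ^ i))| ≤ ρ ^ fars δ w θ m := by
  unfold fars
  rw [← prod_filter_mul_prod_filter_not (range m) (fun i => δ ≤ ds (w * θ ^ i))]
  have h1 : ∏ i ∈ (range m).filter (fun i => δ ≤ ds (w * θ ^ i)),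
      |Real.cos (Real.pi * (w * θ ^ i))| ≤
      ρ ^ ((range m).filter (fun i => δ ≤ ds (w * θ ^ i))).card := by
    rw [← prod_const]
    refine prod_le_prod (fun i _ => abs_nonneg _) fun i hi => ?_
    exact (cos_le hδ (mem_filter.1 hi).2).trans hρ
  have h2 : ∏ i ∈ (range m).filter (fun i => ¬ δ ≤ ds (w * θ ^ i)),
      |Real.cos (Real.pi * (w * θ ^ i))| ≤ 1 :=
    prod_le_one (fun i _ => abs_nonneg _) fun i _ => Real.abs_cos_le_one _
  have h3 : 0 ≤ ∏ i ∈ (range m).filter (fun i => δ ≤ ds (w * θ ^ i)),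
      |Real.cos (Real.pi * (w * θ ^ i))| := prod_nonneg fun i _ => abs_nonneg _
  have h4 : 0 ≤ ∏ i ∈ (range m).filter (fun i => ¬ δ ≤ ds (w * θ ^ i)),
      |Real.cos (Real.pi * (w * θ ^ i))| := prod_nonneg fun i _ => abs_nonneg _
  calc _ ≤ ρ ^ ((range m).filter (fun i => δ ≤ ds (w * θ ^ i))).card * 1 :=
        mul_le_mul h1 h2 h4 (h3.trans h1)
    _ = _ := mul_one _

/-- Erdős-Kahane: power decay for almost every `θ`. -/
theorem ek_decay : ∀ᵐ θ : ℝ, 2 < θ → ∃ C d : ℝ, 0 < C ∧ 0 < d ∧ ∀ (J : ℕ) (t : ℝ), 1 ≤ t →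
    t ≤ θ ^ J → ∏ j ∈ range J, |Real.cos (Real.pi * ((θ - 1) * t / θ ^ (j + 1)))| ≤
      C * t ^ (-d) := by
  filter_upwards [ek_ae] with θ hθ hθ2
  obtain ⟨δ, q, M0, hδ0, hδ1, hq, hM⟩ := hθ (by linarith)
  have hpi := Real.pi_pos
  obtain ⟨ρ, hρdef⟩ : ∃ ρ : ℝ, ρ = (1 + Real.cos (Real.pi * δ)) / 2 := ⟨_, rfl⟩
  have hc0 : 0 ≤ Real.cos (Real.pi * δ) :=
    Real.cos_nonneg_of_neg_pi_div_two_le_of_le (by nlinarith) (by nlinarith)
  have hc1 : Real.cos (Real.pi * δ) < 1 := by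
    have h1 := Real.cos_lt_cos_of_nonneg_of_le_pi (x := 0) (y := Real.pi * δ) le_rfl (by nlinarith)
      (by positivity)
    rwa [Real.cos_zero] at h1
  have hρ0 : 0 < ρ := by
    rw [hρdef]
    linarith
  have hρ1 : ρ < 1 := by
    rw [hρdef]
    linarith
  have hρc : Real.cos (Real.pi * δ) ≤ ρ := by
    rw [hρdef]
    linarith
  have hlogρ : 0 < -Real.log ρ := by
    have := Real.log_neg hρ0 hρ1
    linarith
  have hlogθ : 0 < Real.log θ := Real.log_pos (by linarith)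
  have hqR : (0 : ℝ) < q := by exact_mod_cast hq
  obtain ⟨lam, hlam⟩ : ∃ lam : ℝ, lam = -Real.log ρ / (3 * q) := ⟨_, rfl⟩
  have hlam0 : 0 < lam := by
    rw [hlam]
    positivity
  obtain ⟨d, hd⟩ : ∃ d : ℝ, d = lam / Real.log θ := ⟨_, rfl⟩
  have hd0 : 0 < d := by
    rw [hd]
    positivity
  have hdθ : d * Real.log θ = lam := by
    rw [hd]
    field_simp
  refine ⟨Real.exp (lam * (M0 + 3)), d, Real.exp_pos _, hd0, fun J t ht1 htJ => ?_⟩
  have ht0 : 0 < t := by linarith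
  obtain ⟨x, hx⟩ : ∃ x : ℝ, x = (θ - 1) * t := ⟨_, rfl⟩
  have htx : t ≤ x := by
    rw [hx]
    nlinarith
  obtain ⟨m, hm1, hm2⟩ := exists_nat_pow_near (ht1.trans htx) (by linarith : 1 < θ)
  have hθ0 : 0 < θ := by linarith
  have hmJ : m ≤ J := by
    have h1 : θ ^ m < θ ^ (J + 1) := by
      refine lt_of_le_of_lt hm1 ?_
      rw [hx, pow_succ]
      have h2 : 0 < θ ^ J := by positivity
      nlinarith
    have h2 := (pow_lt_pow_iff_right₀ (by linarith : 1 < θ)).1 h1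
    omega
  have hlogt : Real.log t ≤ (m + 1) * Real.log θ := by
    have h1 : Real.log t ≤ Real.log (θ ^ (m + 1)) := Real.log_le_log ht0 (htx.trans hm2.le)
    rw [Real.log_pow] at h1
    push_cast at h1
    exact h1
  have hgoal : Real.exp (lam * (M0 + 3)) * Real.exp (-(lam * (m + 1))) ≤
      Real.exp (lam * (M0 + 3)) * t ^ (-d) := by
    refine mul_le_mul_of_nonneg_left ?_ (Real.exp_pos _).le
    rw [Real.rpow_def_of_pos ht0]
    apply Real.exp_le_exp.2
    nlinarith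
  refine le_trans ?_ hgoal
  rw [← Real.exp_add]
  -- the product is at most one
  have hone : ∏ j ∈ range J, |Real.cos (Real.pi * ((θ - 1) * t / θ ^ (j + 1)))| ≤ 1 :=
    prod_le_one (fun i _ => abs_nonneg _) fun i _ => Real.abs_cos_le_one _
  rcases Nat.lt_or_ge m (M0 + 2) with hmM | hmM
  · refine hone.trans (Real.one_le_exp ?_)
    have h1 : (m : ℝ) + 1 ≤ M0 + 3 := by
      have : ((m + 1 : ℕ) : ℝ) ≤ ((M0 + 3 : ℕ) : ℝ) := by exact_mod_cast (by omega : m + 1 ≤ M0 + 3)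
      push_cast at this
      exact this
    nlinarith
  · -- the main case
    have hprod : ∏ j ∈ range J, |Real.cos (Real.pi * ((θ - 1) * t / θ ^ (j + 1)))| ≤
        ∏ j ∈ range m, |Real.cos (Real.pi * ((θ - 1) * t / θ ^ (j + 1)))| := by
      obtain ⟨k, rfl⟩ := Nat.exists_eq_add_of_le hmJ
      rw [prod_range_add]
      refine mul_le_of_le_one_right (prod_nonneg fun i _ => abs_nonneg _) ?_
      exact prod_le_one (fun i _ => abs_nonneg _) fun i _ => Real.abs_cos_le_one _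
    obtain ⟨w, hw⟩ : ∃ w : ℝ, w = x / θ ^ m := ⟨_, rfl⟩
    have hw1 : 1 ≤ w := by
      rw [hw, le_div_iff₀ (by positivity)]
      linarith
    have hw2 : w ≤ θ := by
      rw [hw, div_le_iff₀ (by positivity)]
      rw [pow_succ] at hm2
      linarith
    have hrefl : ∏ j ∈ range m, |Real.cos (Real.pi * ((θ - 1) * t / θ ^ (j + 1)))| =
        ∏ i ∈ range m, |Real.cos (Real.pi * (w * θ ^ i))| := by
      rw [← prod_range_reflect]
      refine prod_congr rfl fun i hi => ?_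
      have him := mem_range.1 hi
      congr 3
      rw [← hx, hw, show m - 1 - i + 1 = m - i by omega, div_mul_eq_mul_div,
        div_eq_div_iff (by positivity) (by positivity)]
      have h1 : θ ^ m = θ ^ i * θ ^ (m - i) := by
        rw [← pow_add]
        congr 1
        omega
      rw [h1]
      ring
    rw [hrefl] at hprod
    refine hprod.trans ((prod_le hδ0.le hρc m).trans ?_)
    obtain ⟨m', rfl⟩ : ∃ m', m = m' + 2 := ⟨m - 2, by omega⟩
    have h1 := hM m' (by omega) w hw1 hw2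
    have h2 : ((m' + 2 : ℕ) : ℝ) ≤ 3 * (fars δ w θ (m' + 2) : ℝ) * q := by
      have h3 : m' + 2 ≤ 3 * fars δ w θ (m' + 2) * q := h1.le
      exact_mod_cast h3
    have h4 : ρ ^ fars δ w θ (m' + 2) = Real.exp (fars δ w θ (m' + 2) * Real.log ρ) := by
      rw [Real.exp_nat_mul, Real.exp_log hρ0]
    rw [h4]
    apply Real.exp_le_exp.2
    have h5 : lam * ((m' + 2 : ℕ) : ℝ) ≤ (fars δ w θ (m' + 2) : ℝ) * (-Real.log ρ) := by
      rw [hlam, div_mul_eq_mul_div, div_le_iff₀ (by positivity)]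
      calc -Real.log ρ * ((m' + 2 : ℕ) : ℝ) ≤ -Real.log ρ * (3 * (fars δ w θ (m' + 2) : ℝ) * q) :=
            mul_le_mul_of_nonneg_left h2 hlogρ.le
        _ = _ := by ring
    have h6 : (0 : ℝ) ≤ M0 := Nat.cast_nonneg M0
    nlinarith

end Forcing.EK
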