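import Pool.Agent.Lib.MP_c80ac4_an.PI.EKDecay
import Pool.Agent.Lib.MP_c80ac4_an.Criterion
import Pool.Agent.Lib.MP_c80ac4_an.HM.Defs
import Pool.Agent.Lib.MP_c80ac4_an.Local.Ratio

/-! # The Cantor sets of ratio `1/θ` satisfy the Sidon inequalities for almost every `θ > 2` -/

set_option autoImplicit false

namespace Forcing.EK

open Finset MeasureTheory Filter Topology

/-- The fair coin. -/
noncomputable def coin : Measure Bool :=
  (2 : ENNReal)⁻¹ • (Measure.dirac false + Measure.dirac true)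

instance coin_prob : IsProbabilityMeasure coin := by
  constructor
  unfold coin
  rw [Measure.smul_apply, Measure.add_apply, measure_univ, measure_univ, smul_eq_mul,
    one_add_one_eq_two]
  exact ENNReal.inv_mul_cancel (by norm_num) (by norm_num)

theorem coin_integral (f : Bool → ℂ) : ∫ b, f b ∂coin = (f false + f true) / 2 := by
  unfold coin
  rw [integral_smul_measure, integral_add_measure, integral_dirac, integral_dirac]
  · rw [ENNReal.toReal_inv]
    simp only [ENNReal.toReal_ofNat, Complex.real_smul]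
    push_cast
    ring
  · exact Integrable.of_finite
  · exact Integrable.of_finite

/-- Infinitely many fair coins. -/
noncomputable def Pr : Measure (ℕ → Bool) := Measure.infinitePi (fun _ : ℕ => coin)

instance Pr_prob : IsProbabilityMeasure Pr := by
  unfold Pr
  infer_instance

/-- The digit. -/
noncomputable def dig (θ : ℝ) (b : Bool) : ℝ := if b then θ - 1 else 0

theorem dig_abs {θ : ℝ} (hθ : 1 < θ) (b : Bool) : |dig θ b| ≤ θ - 1 := by
  unfold dig
  split_ifs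
  · rw [abs_of_pos (by linarith)]
  · rw [abs_zero]
    linarith

/-- The random point. -/
noncomputable def Sm (θ : ℝ) (ω : ℕ → Bool) : ℝ := ∑' j, dig θ (ω j) * θ⁻¹ ^ (j + 1)

/-- The partial sums. -/
noncomputable def Sp (θ : ℝ) (J : ℕ) (ω : ℕ → Bool) : ℝ :=
  ∑ j ∈ range J, dig θ (ω j) * θ⁻¹ ^ (j + 1)

theorem geo {θ : ℝ} (hθ : 1 < θ) (J : ℕ) :
    HasSum (fun j : ℕ => (θ - 1) * θ⁻¹ ^ (j + J + 1)) (θ⁻¹ ^ J) := by
  have h0 : 0 < θ := by linarith
  have h1 := (hasSum_geometric_of_lt_one (r := θ⁻¹) (by positivity)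
    (inv_lt_one_of_one_lt₀ hθ)).mul_left ((θ - 1) * θ⁻¹ ^ (J + 1))
  have h2 : (θ - 1) * θ⁻¹ ^ (J + 1) * (1 - θ⁻¹)⁻¹ = θ⁻¹ ^ J := by
    have h3 : 1 - θ⁻¹ = (θ - 1) * θ⁻¹ := by
      field_simp
    rw [h3, pow_succ]
    have h4 : θ - 1 ≠ 0 := by linarith
    field_simp
  rw [h2] at h1
  have h5 : (fun j : ℕ => (θ - 1) * θ⁻¹ ^ (j + J + 1)) =
      fun j => (θ - 1) * θ⁻¹ ^ (J + 1) * θ⁻¹ ^ j := by
    funext j
    ring
  rw [h5]
  exact h1

theorem Sm_summable {θ : ℝ} (hθ : 1 < θ) (ω : ℕ → Bool) :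
    Summable fun j => dig θ (ω j) * θ⁻¹ ^ (j + 1) := by
  have h0 : 0 < θ := by linarith
  refine Summable.of_norm_bounded (geo hθ 0).summable fun j => ?_
  rw [norm_mul, Real.norm_eq_abs, norm_pow, Real.norm_eq_abs, abs_of_pos (by positivity : 0 < θ⁻¹),
    add_zero]
  exact mul_le_mul_of_nonneg_right (dig_abs hθ _) (by positivity)

theorem Sm_sub_Sp {θ : ℝ} (hθ : 1 < θ) (J : ℕ) (ω : ℕ → Bool) :
    |Sm θ ω - Sp θ J ω| ≤ θ⁻¹ ^ J := by
  have h0 : 0 < θ := by linarith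
  have h1 := (Sm_summable hθ ω).sum_add_tsum_nat_add J
  have h2 : Sm θ ω - Sp θ J ω = ∑' j, dig θ (ω (j + J)) * θ⁻¹ ^ (j + J + 1) := by
    unfold Sm Sp
    rw [← h1]
    ring
  rw [h2, ← Real.norm_eq_abs]
  refine tsum_of_norm_bounded (geo hθ J) fun j => ?_
  rw [norm_mul, Real.norm_eq_abs, norm_pow, Real.norm_eq_abs, abs_of_pos (by positivity : 0 < θ⁻¹)]
  exact mul_le_mul_of_nonneg_right (dig_abs hθ _) (by positivity)

theorem Sp_cont (θ : ℝ) (J : ℕ) : Continuous (Sp θ J) := by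
  unfold Sp
  refine continuous_finsetSum _ fun j _ => ?_
  have h1 : Continuous (dig θ) := continuous_of_discreteTopology
  exact (h1.comp (continuous_apply j)).mul continuous_const

theorem Sm_cont {θ : ℝ} (hθ : 1 < θ) : Continuous (Sm θ) := by
  have h0 : 0 < θ := by linarith
  have h1 : Tendsto (fun J : ℕ => θ⁻¹ ^ J) atTop (𝓝 0) :=
    tendsto_pow_atTop_nhds_zero_of_lt_one (by positivity) (inv_lt_one_of_one_lt₀ hθ)
  have h2 : TendstoUniformly (fun J => Sp θ J) (Sm θ) atTop := by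
    rw [Metric.tendstoUniformly_iff]
    intro ε hε
    have h3 := h1.eventually (gt_mem_nhds hε)
    filter_upwards [h3] with J hJ ω
    rw [Real.dist_eq]
    exact lt_of_le_of_lt (Sm_sub_Sp hθ J ω) hJ
  exact h2.continuous (Frequently.of_forall fun J => Sp_cont θ J)

theorem Sp_meas (θ : ℝ) (J : ℕ) : Measurable (Sp θ J) := by
  unfold Sp
  refine Finset.measurable_fun_sum _ fun j _ => ?_
  have h1 : Measurable (dig θ) := measurable_from_top
  exact (h1.comp (measurable_pi_apply j)).mul measurable_const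

theorem Sm_meas {θ : ℝ} (hθ : 1 < θ) : Measurable (Sm θ) := by
  have h0 : 0 < θ := by linarith
  have h1 : Tendsto (fun J : ℕ => θ⁻¹ ^ J) atTop (𝓝 0) :=
    tendsto_pow_atTop_nhds_zero_of_lt_one (by positivity) (inv_lt_one_of_one_lt₀ hθ)
  refine measurable_of_tendsto_metrizable (fun J => Sp_meas θ J) ?_
  rw [tendsto_pi_nhds]
  intro ω
  rw [tendsto_iff_dist_tendsto_zero]
  refine squeeze_zero (fun J => dist_nonneg) (fun J => ?_) h1
  rw [dist_comm, Real.dist_eq]
  exact Sm_sub_Sp hθ J ω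

theorem e_cont : Continuous Ratio.e := by
  unfold Ratio.e
  fun_prop

theorem norm_one_add_e (x : ℝ) : ‖(1 + Ratio.e x) / 2‖ = |Real.cos (Real.pi * x)| := by
  have h1 : 1 + Ratio.e x =
      ((2 * Real.cos (Real.pi * x) : ℝ) : ℂ) * Complex.exp (((Real.pi * x : ℝ) : ℂ) * Complex.I) := by
    unfold Ratio.e
    rw [Complex.exp_mul_I, Complex.exp_mul_I, ← Complex.ofReal_cos, ← Complex.ofReal_sin,
      ← Complex.ofReal_cos, ← Complex.ofReal_sin,
      show 2 * Real.pi * x = 2 * (Real.pi * x) by ring, Real.cos_two_mul, Real.sin_two_mul]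
    push_cast
    ring
  rw [norm_div, h1, norm_mul, Complex.norm_exp_ofReal_mul_I, Complex.norm_real, Real.norm_eq_abs,
    abs_mul, mul_one]
  simp

theorem e_sum (s : Finset ℕ) (f : ℕ → ℝ) : Ratio.e (∑ j ∈ s, f j) = ∏ j ∈ s, Ratio.e (f j) := by
  classical
  induction s using Finset.induction_on with
  | empty => simp [Ratio.e]
  | insert a s ha ih => rw [sum_insert ha, prod_insert ha, Ratio.e_add, ih]

theorem Sp_integral (θ : ℝ) (J n : ℕ) :
    ‖∫ ω, Ratio.e (n * Sp θ J ω) ∂Pr‖ =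
      ∏ j ∈ range J, |Real.cos (Real.pi * ((θ - 1) * n / θ ^ (j + 1)))| := by
  let G : ↥(range J) → Bool → ℂ := fun i b => Ratio.e (n * (dig θ b * θ⁻¹ ^ ((i : ℕ) + 1)))
  let F : ((i : ↥(range J)) → Bool) → ℂ := fun y => ∏ i : ↥(range J), G i (y i)
  have h1 : ∀ ω : ℕ → Bool, Ratio.e (n * Sp θ J ω) = F ((range J).restrict ω) := by
    intro ω
    show Ratio.e (n * Sp θ J ω) = ∏ i : ↥(range J), G i (ω i)
    unfold Sp
    rw [mul_sum, e_sum, ← prod_coe_sort]
  have h3 : ∫ ω, F ((range J).restrict ω) ∂(Measure.infinitePi (fun _ : ℕ => coin)) =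
      ∫ y, F y ∂(Measure.pi (fun _ : ↥(range J) => coin)) :=
    integral_restrict_infinitePi (X := fun _ : ℕ => Bool) (μ := fun _ : ℕ => coin)
      (s := range J) (f := F) (Measurable.of_discrete).aestronglyMeasurable
  have h4 : ∫ y, F y ∂(Measure.pi (fun _ : ↥(range J) => coin)) =
      ∏ i : ↥(range J), ∫ b, G i b ∂coin :=
    integral_fintype_prod_eq_prod G
  have h2 : ∫ ω, Ratio.e (n * Sp θ J ω) ∂Pr =
      ∏ i : ↥(range J), (1 + Ratio.e ((θ - 1) * n / θ ^ ((i : ℕ) + 1))) / 2 := by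
    rw [integral_congr_ae (Eventually.of_forall h1)]
    unfold Pr
    rw [h3, h4]
    refine prod_congr rfl fun i _ => ?_
    rw [coin_integral]
    have g1 : G i false = 1 := by
      simp [G, dig, Ratio.e]
    have g2 : G i true = Ratio.e ((θ - 1) * n / θ ^ ((i : ℕ) + 1)) := by
      show Ratio.e (n * (dig θ true * θ⁻¹ ^ ((i : ℕ) + 1))) = _
      congr 1
      simp only [dig, if_true]
      rw [inv_pow]
      ring
    rw [g1, g2]
  rw [h2, norm_prod, prod_coe_sort (range J)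
    (fun i => ‖(1 + Ratio.e ((θ - 1) * n / θ ^ (i + 1))) / 2‖)]
  exact prod_congr rfl fun i _ => norm_one_add_e _

theorem Sm_integral {θ C d : ℝ} (hθ : 1 < θ)
    (h : ∀ (J : ℕ) (t : ℝ), 1 ≤ t →
      t ≤ θ ^ J → ∏ j ∈ range J, |Real.cos (Real.pi * ((θ - 1) * t / θ ^ (j + 1)))| ≤
        C * t ^ (-d)) (n : ℕ) (hn : 1 ≤ n) :
    ‖∫ ω, Ratio.e (n * Sm θ ω) ∂Pr‖ ≤ C * (n : ℝ) ^ (-d) := by
  have h0 : 0 < θ := by linarith
  have hn1 : (1 : ℝ) ≤ n := by exact_mod_cast hn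
  have h1 : Tendsto (fun J : ℕ => θ⁻¹ ^ J) atTop (𝓝 0) :=
    tendsto_pow_atTop_nhds_zero_of_lt_one (by positivity) (inv_lt_one_of_one_lt₀ hθ)
  have h2 : Tendsto (fun J : ℕ => C * (n : ℝ) ^ (-d) + 2 * Real.pi * (n * θ⁻¹ ^ J)) atTop
      (𝓝 (C * (n : ℝ) ^ (-d) + 2 * Real.pi * (n * 0))) :=
    ((h1.const_mul _).const_mul _).const_add _
  rw [mul_zero, mul_zero, add_zero] at h2
  obtain ⟨J0, hJ0⟩ := pow_unbounded_of_one_lt (n : ℝ) hθ
  refine ge_of_tendsto h2 ?_
  filter_upwards [eventually_ge_atTop J0] with J hJ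
  have h3 : (n : ℝ) ≤ θ ^ J := hJ0.le.trans (pow_le_pow_right₀ hθ.le hJ)
  have h4 := h J n hn1 h3
  rw [← Sp_integral] at h4
  have m1 : Measurable fun ω => Ratio.e (n * Sm θ ω) :=
    e_cont.measurable.comp ((Sm_meas hθ).const_mul _)
  have m2 : Measurable fun ω => Ratio.e (n * Sp θ J ω) :=
    e_cont.measurable.comp ((Sp_meas θ J).const_mul _)
  have i1 : Integrable (fun ω => Ratio.e (n * Sm θ ω)) Pr :=
    Integrable.of_bound m1.aestronglyMeasurable 1
      (Eventually.of_forall fun ω => (Ratio.norm_e _).le)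
  have i2 : Integrable (fun ω => Ratio.e (n * Sp θ J ω)) Pr :=
    Integrable.of_bound m2.aestronglyMeasurable 1
      (Eventually.of_forall fun ω => (Ratio.norm_e _).le)
  have h5 : ∫ ω, Ratio.e (n * Sm θ ω) ∂Pr = ∫ ω, Ratio.e (n * Sp θ J ω) ∂Pr +
      ∫ ω, (Ratio.e (n * Sm θ ω) - Ratio.e (n * Sp θ J ω)) ∂Pr := by
    rw [integral_sub i1 i2]
    ring
  rw [h5]
  refine (norm_add_le _ _).trans (add_le_add h4 ?_)
  have h6 := norm_integral_le_of_norm_le_const (μ := Pr)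
    (f := fun ω => Ratio.e (n * Sm θ ω) - Ratio.e (n * Sp θ J ω))
    (C := 2 * Real.pi * (n * θ⁻¹ ^ J)) (Eventually.of_forall fun ω => by
      refine (Ratio.e_sub_le _ _).trans ?_
      refine mul_le_mul_of_nonneg_left ?_ Real.two_pi_pos.le
      rw [← mul_sub, abs_mul, abs_of_nonneg (by linarith : (0 : ℝ) ≤ n)]
      exact mul_le_mul_of_nonneg_left (Sm_sub_Sp hθ J ω) (by linarith))
  simpa using h6

/-- **Almost every Cantor set of constant ratio satisfies the Sidon inequalities.** -/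
theorem ae_sidonOn : ∀ᵐ θ : ℝ, 2 < θ → SidonOn (Ratio.e '' digitSet θ {0, θ - 1}) := by
  filter_upwards [ek_decay] with θ hθ hθ2
  obtain ⟨C, d, hC, hd, h⟩ := hθ hθ2
  have hθ1 : 1 < θ := by linarith
  have hm : Measurable fun ω => Ratio.e (Sm θ ω) := e_cont.measurable.comp (Sm_meas hθ1)
  have hc : Continuous fun ω => Ratio.e (Sm θ ω) := e_cont.comp (Sm_cont hθ1)
  have hcl : IsClosed (Set.range fun ω => Ratio.e (Sm θ ω)) := (isCompact_range hc).isClosed
  have : IsProbabilityMeasure (Pr.map fun ω => Ratio.e (Sm θ ω)) :=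
    Measure.isProbabilityMeasure_map hm.aemeasurable
  refine sidonOn_of_decay hd (Pr.map fun ω => Ratio.e (Sm θ ω)) ?_ ?_ (C₀ := C) ?_
  · rw [ae_map_iff hm.aemeasurable (measurableSet_eq_fun (by fun_prop) (by fun_prop))]
    exact Eventually.of_forall fun ω => Ratio.norm_e _
  · have h1 : ∀ᵐ z ∂(Pr.map fun ω => Ratio.e (Sm θ ω)),
        z ∈ Set.range fun ω => Ratio.e (Sm θ ω) := by
      refine (ae_map_iff (p := fun z => z ∈ Set.range fun ω => Ratio.e (Sm θ ω))
        hm.aemeasurable hcl.measurableSet).2 ?_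
      exact Eventually.of_forall fun ω => ⟨ω, rfl⟩
    filter_upwards [h1] with z hz
    obtain ⟨ω, rfl⟩ := hz
    refine ⟨Sm θ ω, ⟨fun j => dig θ (ω j), fun j => ?_, (Sm_summable hθ1 ω).hasSum⟩, rfl⟩
    show dig θ (ω j) ∈ ({0, θ - 1} : Set ℝ)
    unfold dig
    split_ifs
    · right
      rfl
    · left
      rfl
  · intro n hn
    rw [integral_map hm.aemeasurable (by fun_prop)]
    have h2 : ∀ ω, Ratio.e (Sm θ ω) ^ n = Ratio.e (n * Sm θ ω) := fun ω => Ratio.e_pow _ _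
    simp_rw [h2]
    exact Sm_integral hθ1 h n hn

end Forcing.EK
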